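import Pool.Agent.helper17.EXC.Spec

/-!
# en:TSY (project EXC, MP_561ff4_al): the type of a pair of extremal elements is symmetric
-/

set_option autoImplicit false

open Finset

namespace Pool.Agent.EXC

theorem TSY_ip (hRFL : RFL_stmt) {n : ℕ} (C : Matrix (Fin n) (Fin n) ℤ) [IsC C] (p : (Fin n → ℤ) × (Fin n → ℤ)) :
    ∀ q : (Fin n → ℤ) × (Fin n → ℤ), WP C p q → ip C q.1 q.2 = ip C p.1 p.2 := by
  intro q hq
  induction hq with
  | refl => rfl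
  | @tail p' q _ hstep ih =>
    obtain ⟨i, rfl⟩ := hstep
    rw [← ih]
    exact (hRFL n C i p'.1 p'.2).1

theorem TSY_ne {F : Type} [Field F] (s : ℤ) (hs : s = 1 ∨ s = -1) : (s : F) ≠ 0 := by
  rcases hs with rfl | rfl <;> simp

theorem TSY (hNBR : NBR_stmt) (hWPG : WPG_stmt) (hRFL : RFL_stmt) : TSY_stmt := by
  intro n C _ F _ j0 θ δ hE a b m hT
  obtain ⟨k, hk, β, hβ, hm, c, c', hc, hc', ka, kb⟩ := hT
  obtain ⟨hb, hn⟩ := hNBR n C j0 θ δ hE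
  obtain ⟨β', hβ', hw⟩ := hn β θ θ hβ hE.th2 hE.th2
  obtain ⟨g, hg, s, s', hs, hs', e1, e2⟩ := hWPG n C F hb β θ θ β' hβ hE.th2 hw
  have hip : ip C θ β' = ip C β θ := TSY_ip hRFL C (β, θ) (θ, β') hw
  refine ⟨g * k, Subgroup.mul_mem _ hg hk, β', hβ', ?_, c' * s, c * s', ?_, ?_, ?_, ?_⟩
  · rw [hip, ip_comm C β θ, hm]
  · exact mul_ne_zero hc' (TSY_ne s hs)
  · exact mul_ne_zero hc (TSY_ne s' hs')
  · rw [LinearEquiv.mul_apply, kb, map_smul, e1, smul_smul]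
  · rw [LinearEquiv.mul_apply, ka, map_smul, e2, smul_smul]

end Pool.Agent.EXC
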